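import Mathlib
import Pool.Agent.AbsBorel.All

set_option autoImplicit false

open Cardinal Set MeasureTheory

namespace Pool.Agent.Results.MP_c06a36_lc.AllGroups

/-- The σ-algebra `B(A)` on `E` generated by the sets of the sequence `A`. -/
@[reducible] def genSigma {E : Type} (A : ℕ → Set E) : MeasurableSpace E :=
  MeasurableSpace.generateFrom (range A)

/-- The sequence `A` is measurable: there is a countably additive `m` on `B(A)` with `m(E) = 1`
which vanishes on every singleton belonging to `B(A)`. -/
def MeasurableSeq {E : Type} (A : ℕ → Set E) : Prop :=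
  ∃ m : @Measure E (genSigma A), m univ = 1 ∧
    ∀ x : E, MeasurableSet[genSigma A] {x} → m {x} = 0

/-- The σ-algebra on `E³` generated by the products `B₁ × B₂ × B₃` with `B₁, B₂, B₃ ∈ B(A)`. -/
@[reducible] def boxSigma {E : Type} (A : ℕ → Set E) : MeasurableSpace (E × E × E) :=
  MeasurableSpace.generateFrom {Z | ∃ B₁ B₂ B₃ : Set E, MeasurableSet[genSigma A] B₁ ∧
    MeasurableSet[genSigma A] B₂ ∧ MeasurableSet[genSigma A] B₃ ∧ Z = B₁ ×ˢ (B₂ ×ˢ B₃)}

/-- `Z ⊆ E³` is Borelian with respect to the sequence `A`. -/
def Borelian {E : Type} (A : ℕ → Set E) (Z : Set (E × E × E)) : Prop :=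
  MeasurableSet[boxSigma A] Z

/-- The representation `{(x, y, z) : x * y = z}` of a group operation. -/
def graph (E : Type) [Group E] : Set (E × E × E) := {w | w.1 * w.2.1 = w.2.2}

/-- The group `E` is abstractly Borelian: its representation is Borelian with respect to some
measurable sequence of subsets of `E`. -/
def AbstractlyBorelian (E : Type) [Group E] : Prop :=
  ∃ A : ℕ → Set E, MeasurableSeq A ∧ Borelian A (graph E)

/-- In ZFC, every group whose underlying set has cardinality `𝔠` is abstractly Borelian. -/
theorem result : ∀ (E : Type) [Group E], #E = 𝔠 → AbstractlyBorelian E :=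
  fun E _ hE => AbsBorel.abstractlyBorelian_all E hE

end Pool.Agent.Results.MP_c06a36_lc.AllGroups
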